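import Pool.Agent.Lib.MP_4d246d_lc.Maj.Crit

/-!
# The number of strict sign patterns of real polynomials

`card_sign_le`: `M` real polynomials of degree at most `D` in `k` variables have at most
`(2MD+1)^k` strict sign patterns.
-/

namespace Pool.Agent.MP4d246d.Maj

open MvPolynomial

variable {σ : Type*}

theorem totalDegree_pderiv_le (i : σ) (p : MvPolynomial σ ℝ) :
    (pderiv i p).totalDegree ≤ p.totalDegree := by
  classical
  conv_lhs => rw [p.as_sum]
  rw [map_sum]
  refine totalDegree_finsetSum_le fun m hm => ?_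
  rw [pderiv_monomial]
  refine (totalDegree_monomial_le _ _).trans ?_
  refine le_trans ?_ (le_totalDegree hm)
  have hle : m - Finsupp.single i 1 ≤ m := tsub_le_self
  exact Finsupp.sum_le_sum_index hle (fun _ _ _ _ h => h) (fun _ _ => rfl)

variable [Fintype σ] [DecidableEq σ]

theorem hasDerivAt_eval (p : MvPolynomial σ ℝ) (x : σ → ℝ) (j : σ) :
    HasDerivAt (fun t : ℝ => eval (Function.update x j t) p) (eval x (pderiv j p)) (x j) := by
  induction p using MvPolynomial.induction_on with
  | C a => simpa using hasDerivAt_const (x j) a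
  | add p q hp hq =>
    simp only [map_add]
    exact hp.add hq
  | mul_X p k hp =>
    have hX : HasDerivAt (fun t : ℝ => eval (Function.update x j t) (X k : MvPolynomial σ ℝ))
        (eval x (pderiv j (X k))) (x j) := by
      by_cases hk : k = j
      · subst hk
        simp only [eval_X, Function.update_self, pderiv_X_self, map_one]
        exact hasDerivAt_id (x k)
      · simp only [eval_X, Function.update_of_ne hk, pderiv_X_of_ne hk, map_zero]
        exact hasDerivAt_const (x j) (x k)
    have h := hp.mul hX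
    simp only [Function.update_eq_self] at h
    rw [pderiv_mul]
    simp only [map_add, map_mul] at h ⊢
    exact h

theorem continuous_evalP (p : MvPolynomial σ ℝ) : Continuous fun x : σ → ℝ => eval x p :=
  MvPolynomial.continuous_eval p

theorem abs_eval_le (f : MvPolynomial σ ℝ) (x : σ → ℝ) {R : ℝ} (hR : 1 ≤ R)
    (hx : ∀ j, |x j| ≤ R) {d : ℕ} (hd : f.totalDegree ≤ d) :
    |eval x f| ≤ (∑ m ∈ f.support, |coeff m f|) * R ^ d := by
  rw [eval_eq, Finset.sum_mul]
  refine (Finset.abs_sum_le_sum_abs _ _).trans (Finset.sum_le_sum fun m hm => ?_)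
  rw [abs_mul]
  refine mul_le_mul_of_nonneg_left ?_ (abs_nonneg _)
  rw [Finset.abs_prod]
  calc ∏ i ∈ m.support, |x i ^ m i| ≤ ∏ i ∈ m.support, R ^ m i := by
        refine Finset.prod_le_prod (fun _ _ => abs_nonneg _) fun i _ => ?_
        rw [abs_pow]
        exact pow_le_pow_left₀ (abs_nonneg _) (hx i) _
    _ = R ^ (∑ i ∈ m.support, m i) := by rw [Finset.prod_pow_eq_pow_sum]
    _ ≤ R ^ d := pow_le_pow_right₀ hR ((le_totalDegree hm).trans hd)

/-- the perturbed function -/
noncomputable def hfun (f : MvPolynomial σ ℝ) (ε : ℝ) (K : ℕ) (x : σ → ℝ) : ℝ :=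
  ε * ∑ j, x j ^ (2 * K) - (eval x f) ^ 2

theorem continuous_hfun (f : MvPolynomial σ ℝ) (ε : ℝ) (K : ℕ) :
    Continuous (hfun f ε K) := by
  unfold hfun
  have := continuous_evalP f
  fun_prop

theorem hfun_pos {f : MvPolynomial σ ℝ} {ε : ℝ} {d : ℕ} (hε : 0 < ε)
    (hd : f.totalDegree ≤ d) {x : σ → ℝ} {R : ℝ}
    (hR : 1 + (∑ m ∈ f.support, |coeff m f|) ^ 2 / ε ≤ R)
    (hx : ∀ j, |x j| ≤ R) {i : σ} (hi : |x i| = R) : 0 < hfun f ε (d + 1) x := by
  set c := ∑ m ∈ f.support, |coeff m f| with hc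
  have hc0 : 0 ≤ c ^ 2 / ε := div_nonneg (sq_nonneg _) hε.le
  have hR1 : 1 ≤ R := by linarith
  have h1 := abs_eval_le f x hR1 hx hd
  rw [← hc] at h1
  have h2 : (eval x f) ^ 2 ≤ c ^ 2 * (R ^ d) ^ 2 := by
    rw [← mul_pow, ← sq_abs (eval x f)]
    exact pow_le_pow_left₀ (abs_nonneg _) h1 2
  have h3 : R ^ (2 * (d + 1)) ≤ ∑ j, x j ^ (2 * (d + 1)) := by
    have : x i ^ (2 * (d + 1)) = R ^ (2 * (d + 1)) := by
      rw [← hi, pow_mul, pow_mul, sq_abs]
    rw [← this]
    exact Finset.single_le_sum (f := fun j => x j ^ (2 * (d + 1)))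
      (fun j _ => by rw [pow_mul]; positivity) (Finset.mem_univ i)
  have h4 : c ^ 2 < ε * R ^ 2 := by
    have h5 : R ≤ R ^ 2 := by nlinarith
    have h6 : c ^ 2 / ε < R := by linarith
    rw [div_lt_iff₀ hε] at h6
    nlinarith
  have h7 : R ^ (2 * (d + 1)) = (R ^ d) ^ 2 * R ^ 2 := by ring
  unfold hfun
  have h8 : 0 < (R ^ d) ^ 2 := by positivity
  have h9 : ε * R ^ (2 * (d + 1)) ≤ ε * ∑ j, x j ^ (2 * (d + 1)) :=
    mul_le_mul_of_nonneg_left h3 hε.le
  rw [h7] at h9
  nlinarith [mul_lt_mul_of_pos_right h4 h8]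

variable {ι : Type*} [Fintype ι]

/-- the open region of a strict sign pattern -/
def region (p : ι → MvPolynomial σ ℝ) (s : ι → Bool) : Set (σ → ℝ) :=
  {x | ∀ i, if s i then 0 < eval x (p i) else eval x (p i) < 0}

/-- the closed region -/
def cregion (p : ι → MvPolynomial σ ℝ) (s : ι → Bool) : Set (σ → ℝ) :=
  {x | ∀ i, if s i then 0 ≤ eval x (p i) else eval x (p i) ≤ 0}

omit [Fintype σ] [DecidableEq σ] [Fintype ι] in
theorem region_inj {p : ι → MvPolynomial σ ℝ} {s s' : ι → Bool} {x : σ → ℝ}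
    (h : x ∈ region p s) (h' : x ∈ region p s') : s = s' := by
  funext i
  have h1 := h i
  have h2 := h' i
  cases hs : s i <;> cases hs' : s' i
  · rfl
  · simp only [hs, hs', Bool.false_eq_true, if_false, if_true] at h1 h2
    linarith
  · simp only [hs, hs', Bool.false_eq_true, if_false, if_true] at h1 h2
    linarith
  · rfl

omit [DecidableEq σ] in
theorem isOpen_region (p : ι → MvPolynomial σ ℝ) (s : ι → Bool) : IsOpen (region p s) := by
  have : region p s = ⋂ i, {x | if s i then 0 < eval x (p i) else eval x (p i) < 0} := by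
    ext x; simp [region]
  rw [this]
  refine isOpen_iInter_of_finite fun i => ?_
  cases s i
  · simpa using isOpen_lt (MvPolynomial.continuous_eval (p i)) continuous_const
  · simpa using isOpen_lt continuous_const (MvPolynomial.continuous_eval (p i))

omit [DecidableEq σ] [Fintype ι] in
theorem isClosed_cregion (p : ι → MvPolynomial σ ℝ) (s : ι → Bool) :
    IsClosed (cregion p s) := by
  have : cregion p s = ⋂ i, {x | if s i then 0 ≤ eval x (p i) else eval x (p i) ≤ 0} := by
    ext x; simp [cregion]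
  rw [this]
  refine isClosed_iInter fun i => ?_
  cases s i
  · simpa using isClosed_le (MvPolynomial.continuous_eval (p i)) continuous_const
  · simpa using isClosed_le continuous_const (MvPolynomial.continuous_eval (p i))

omit [Fintype σ] [DecidableEq σ] in
theorem region_of_cregion {p : ι → MvPolynomial σ ℝ} {s : ι → Bool} {x : σ → ℝ}
    (h : x ∈ cregion p s) (hne : eval x (∏ i, p i) ≠ 0) : x ∈ region p s := by
  intro i
  have h1 := h i
  rw [map_prod] at hne
  have h2 : eval x (p i) ≠ 0 := fun h0 => hne (Finset.prod_eq_zero (Finset.mem_univ i) h0)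
  cases hs : s i
  · simp only [hs, Bool.false_eq_true, if_false] at h1 ⊢
    exact lt_of_le_of_ne h1 h2
  · simp only [hs, if_true] at h1 ⊢
    exact lt_of_le_of_ne h1 (Ne.symm h2)

omit [Fintype σ] [DecidableEq σ] [Fintype ι] in
theorem cregion_of_region {p : ι → MvPolynomial σ ℝ} {s : ι → Bool} {x : σ → ℝ}
    (h : x ∈ region p s) : x ∈ cregion p s := by
  intro i
  have h1 := h i
  cases hs : s i
  · simp only [hs, Bool.false_eq_true, if_false] at h1 ⊢
    exact h1.le
  · simp only [hs, if_true] at h1 ⊢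
    exact h1.le

/-- a critical point in every region -/
theorem exists_crit {p : ι → MvPolynomial σ ℝ} {d : ℕ} (hd : (∏ i, p i).totalDegree ≤ d)
    {ε : ℝ} (hε : 0 < ε) {s : ι → Bool} {x₀ : σ → ℝ} (hx₀ : x₀ ∈ region p s)
    (hneg : hfun (∏ i, p i) ε (d + 1) x₀ < 0) :
    ∃ x ∈ region p s, ∀ j, x j ^ (2 * d + 1) =
      eval x (C (1 / (ε * (d + 1))) * ((∏ i, p i) * pderiv j (∏ i, p i))) := by
  set f := ∏ i, p i with hf
  set c := ∑ m ∈ f.support, |coeff m f| with hc
  set R : ℝ := max (1 + c ^ 2 / ε) (∑ j, |x₀ j|) with hR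
  have hR1 : 1 + c ^ 2 / ε ≤ R := le_max_left _ _
  have hbox₀ : ∀ j, |x₀ j| ≤ R := fun j =>
    (Finset.single_le_sum (f := fun j => |x₀ j|) (fun _ _ => abs_nonneg _)
      (Finset.mem_univ j)).trans (le_max_right _ _)
  set B : Set (σ → ℝ) := Set.pi Set.univ fun _ => Set.Icc (-R) R with hB
  have hBmem : ∀ x, x ∈ B ↔ ∀ j, |x j| ≤ R := by
    intro x
    rw [hB, Set.mem_pi]
    simp only [Set.mem_univ, forall_true_left, Set.mem_Icc, abs_le]
  have hBc : IsCompact B := isCompact_univ_pi fun _ => isCompact_Icc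
  have hcomp : IsCompact (cregion p s ∩ B) := hBc.inter_left (isClosed_cregion p s)
  have hne : (cregion p s ∩ B).Nonempty := ⟨x₀, cregion_of_region hx₀, (hBmem x₀).2 hbox₀⟩
  obtain ⟨x, ⟨hxc, hxB⟩, hmin⟩ := hcomp.exists_isMinOn hne (continuous_hfun f ε (d + 1)).continuousOn
  have hxneg : hfun f ε (d + 1) x < 0 :=
    lt_of_le_of_lt (hmin ⟨cregion_of_region hx₀, (hBmem x₀).2 hbox₀⟩) hneg
  have hxf : eval x f ≠ 0 := by
    intro h0
    unfold hfun at hxneg
    rw [h0] at hxneg
    have : 0 ≤ ε * ∑ j, x j ^ (2 * (d + 1)) :=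
      mul_nonneg hε.le (Finset.sum_nonneg fun j _ => by rw [pow_mul]; positivity)
    simp at hxneg
    linarith
  have hxr : x ∈ region p s := region_of_cregion hxc hxf
  have hxlt : ∀ j, |x j| < R := by
    intro j
    refine lt_of_le_of_ne ((hBmem x).1 hxB j) fun he => ?_
    exact absurd (hfun_pos hε hd hR1 ((hBmem x).1 hxB) he) (not_lt.2 hxneg.le)
  refine ⟨x, hxr, fun j => ?_⟩
  -- local minimum
  have hopen : IsOpen {y : σ → ℝ | ∀ j, |y j| < R} := by
    have : {y : σ → ℝ | ∀ j, |y j| < R} = ⋂ j, {y | |y j| < R} := by ext y; simp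
    rw [this]
    exact isOpen_iInter_of_finite fun j => isOpen_lt (by fun_prop) continuous_const
  have hloc : IsLocalMin (hfun f ε (d + 1)) x := by
    have hnhds : region p s ∩ {y : σ → ℝ | ∀ j, |y j| < R} ∈ nhds x :=
      ((isOpen_region p s).inter hopen).mem_nhds ⟨hxr, hxlt⟩
    refine Filter.mem_of_superset hnhds ?_
    rintro y ⟨hy1, hy2⟩
    exact hmin ⟨cregion_of_region hy1, (hBmem y).2 fun j => (hy2 j).le⟩
  have hcont : ContinuousAt (fun t : ℝ => Function.update x j t) (x j) :=
    (continuous_const.update j continuous_id).continuousAt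
  have hloc' : IsLocalMin (fun t : ℝ => hfun f ε (d + 1) (Function.update x j t)) (x j) := by
    have h1 : Filter.Tendsto (fun t : ℝ => Function.update x j t) (nhds (x j)) (nhds x) := by
      have := hcont.tendsto
      rwa [Function.update_eq_self] at this
    have h2 := h1.eventually hloc
    filter_upwards [h2] with t ht
    rw [Function.update_eq_self]
    exact ht
  have hder : HasDerivAt (fun t : ℝ => hfun f ε (d + 1) (Function.update x j t))
      (ε * ((2 * (d + 1) : ℕ) * x j ^ (2 * (d + 1) - 1)) -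
        2 * eval x f * eval x (pderiv j f)) (x j) := by
    unfold hfun
    have hsum : HasDerivAt (fun t : ℝ => ∑ k, (Function.update x j t) k ^ (2 * (d + 1)))
        ((2 * (d + 1) : ℕ) * x j ^ (2 * (d + 1) - 1)) (x j) := by
      have hterm : ∀ k ∈ (Finset.univ : Finset σ),
          HasDerivAt (fun t : ℝ => (Function.update x j t) k ^ (2 * (d + 1)))
            (if k = j then (2 * (d + 1) : ℕ) * x j ^ (2 * (d + 1) - 1) else 0) (x j) := by
        intro k _
        by_cases hk : k = j
        · subst hk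
          simp only [Function.update_self, if_true]
          exact hasDerivAt_pow (2 * (d + 1)) (x k)
        · simp only [Function.update_of_ne hk, if_neg hk]
          exact hasDerivAt_const _ _
      have := HasDerivAt.fun_sum hterm
      simpa using this
    have hf2 : HasDerivAt (fun t : ℝ => (eval (Function.update x j t) f) ^ 2)
        (2 * eval x f * eval x (pderiv j f)) (x j) := by
      have h := (hasDerivAt_eval f x j).fun_pow 2
      simp only [Function.update_eq_self] at h
      norm_num at h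
      exact h
    exact (hsum.const_mul ε).fun_sub hf2
  have h0 := hloc'.hasDerivAt_eq_zero hder
  simp only [map_mul, eval_C]
  have hexp : 2 * (d + 1) - 1 = 2 * d + 1 := by omega
  rw [hexp] at h0
  push_cast at h0
  have hd1 : (0 : ℝ) < ε * (d + 1) := by positivity
  field_simp
  linarith

open Classical in
/-- **The number of strict sign patterns.** -/
theorem card_sign_le (p : ι → MvPolynomial σ ℝ) {d : ℕ} (hd : (∏ i, p i).totalDegree ≤ d)
    (S : Finset (ι → Bool)) (hS : ∀ s ∈ S, (region p s).Nonempty) :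
    S.card ≤ (2 * d + 1) ^ Fintype.card σ := by
  set f := ∏ i, p i with hf
  choose! x₀ hx₀ using hS
  have hfx : ∀ s ∈ S, 0 < (eval (x₀ s) f) ^ 2 := by
    intro s hs
    have : eval (x₀ s) f ≠ 0 := by
      rw [hf, map_prod]
      refine Finset.prod_ne_zero_iff.2 fun i _ => ?_
      have h := hx₀ s hs i
      cases hsi : s i
      · simp only [hsi, Bool.false_eq_true, if_false] at h
        exact h.ne
      · simp only [hsi, if_true] at h
        exact h.ne'
    positivity
  obtain ⟨ε, hε, hεS⟩ : ∃ ε : ℝ, 0 < ε ∧ ∀ s ∈ S, hfun f ε (d + 1) (x₀ s) < 0 := by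
    rcases S.eq_empty_or_nonempty with h | hne
    · exact ⟨1, one_pos, by simp [h]⟩
    · obtain ⟨s₀, hs₀, hmin⟩ := S.exists_min_image
        (fun s => (eval (x₀ s) f) ^ 2 / (∑ j, x₀ s j ^ (2 * (d + 1)) + 1)) hne
      have hpos : ∀ s, 0 < ∑ j, x₀ s j ^ (2 * (d + 1)) + 1 := fun s =>
        add_pos_of_nonneg_of_pos (Finset.sum_nonneg fun j _ => by rw [pow_mul]; positivity) one_pos
      refine ⟨_, div_pos (hfx s₀ hs₀) (hpos s₀), fun s hs => ?_⟩
      have h1 := hmin s hs
      set ε := (eval (x₀ s₀) f) ^ 2 / (∑ j, x₀ s₀ j ^ (2 * (d + 1)) + 1) with hεdef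
      have hε0 : 0 < ε := div_pos (hfx s₀ hs₀) (hpos s₀)
      rw [le_div_iff₀ (hpos s)] at h1
      unfold hfun
      nlinarith
  have hcrit : ∀ s ∈ S, ∃ x ∈ region p s, ∀ j, x j ^ (2 * d + 1) =
      eval x (C (1 / (ε * (d + 1))) * (f * pderiv j f)) := fun s hs =>
    exists_crit hd hε (hx₀ s hs) (hεS s hs)
  choose! y hy hyc using hcrit
  have hinj : Set.InjOn y S := fun s hs s' hs' he =>
    region_inj (hy s hs) (he ▸ hy s' hs')
  rw [← Finset.card_image_of_injOn hinj]
  refine card_le_of_pure (fun j => C (1 / (ε * (d + 1))) * (f * pderiv j f)) ?_ ?_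
  · intro j
    have h1 : (C (1 / (ε * (d + 1))) * (f * pderiv j f)).totalDegree ≤
        (C (1 / (ε * (d + 1))) : MvPolynomial σ ℝ).totalDegree + (f * pderiv j f).totalDegree :=
      totalDegree_mul _ _
    have h2 : (f * pderiv j f).totalDegree ≤ f.totalDegree + (pderiv j f).totalDegree :=
      totalDegree_mul _ _
    have h3 := totalDegree_pderiv_le j f
    rw [totalDegree_C] at h1
    omega
  · intro t ht j
    obtain ⟨s, hs, rfl⟩ := Finset.mem_image.1 ht
    exact hyc s hs j

end Pool.Agent.MP4d246d.Maj
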