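import Mathlib

/-!
# Few common zeros of polynomials with pure leading powers
-/

namespace Pool.Agent.MP4d246d.Maj

open MvPolynomial

variable {σ : Type*} [Fintype σ]

/-- functions on `T` given by monomials with all exponents `< N` -/
noncomputable def lowSpan (T : Finset (σ → ℝ)) (N : ℕ) : Submodule ℝ (T → ℝ) :=
  Submodule.span ℝ (Set.range fun β : σ → Fin N => fun t : T => ∏ j, (t : σ → ℝ) j ^ (β j : ℕ))

/-- evaluation on `T` -/
noncomputable def evT (T : Finset (σ → ℝ)) (p : MvPolynomial σ ℝ) : T → ℝ := fun t => eval t p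

theorem evT_add (T : Finset (σ → ℝ)) (p q : MvPolynomial σ ℝ) :
    evT T (p + q) = evT T p + evT T q := by
  funext t; simp [evT]

theorem mem_of_monomials {T : Finset (σ → ℝ)} {N : ℕ} (p : MvPolynomial σ ℝ)
    (h : ∀ m ∈ p.support, evT T (monomial m 1) ∈ lowSpan T N) : evT T p ∈ lowSpan T N := by
  have : evT T p = ∑ m ∈ p.support, (coeff m p) • evT T (monomial m 1) := by
    funext t
    simp only [evT, Finset.sum_apply, Pi.smul_apply, smul_eq_mul]
    conv_lhs => rw [p.as_sum]
    rw [map_sum]
    refine Finset.sum_congr rfl fun m _ => ?_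
    rw [eval_monomial, eval_monomial, one_mul]
  rw [this]
  exact Submodule.sum_mem _ fun m hm => Submodule.smul_mem _ _ (h m hm)

theorem monomial_mem {T : Finset (σ → ℝ)} {N : ℕ} (r : σ → MvPolynomial σ ℝ)
    (hdeg : ∀ j, (r j).totalDegree < N)
    (hr : ∀ t ∈ T, ∀ j, t j ^ N = eval t (r j)) :
    ∀ (d : ℕ) (m : σ →₀ ℕ), (m.sum fun _ e => e) = d → evT T (monomial m 1) ∈ lowSpan T N := by
  classical
  intro d
  induction d using Nat.strong_induction_on with
  | _ d ih =>
  intro m hm
  by_cases hlow : ∀ j, m j < N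
  · apply Submodule.subset_span
    refine ⟨fun j => ⟨m j, hlow j⟩, ?_⟩
    funext t
    simp only [evT, eval_monomial, one_mul, Finsupp.prod]
    rw [← Finset.prod_subset (Finset.subset_univ m.support)]
    intro j _ hj
    rw [Finsupp.notMem_support_iff.1 hj, pow_zero]
  · push Not at hlow
    obtain ⟨j, hj⟩ := hlow
    set m' : σ →₀ ℕ := m - Finsupp.single j N with hm'
    have hle : Finsupp.single j N ≤ m := by
      intro k
      by_cases hk : k = j
      · subst hk; simpa using hj
      · simp [Finsupp.single_apply, Ne.symm hk]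
    have hadd : m' + Finsupp.single j N = m := tsub_add_cancel_of_le hle
    have hsum : (m'.sum fun _ e => e) + N = d := by
      rw [← hm, ← hadd, Finsupp.sum_add_index' (fun _ => rfl) (fun _ _ _ => rfl)]
      simp
    have heq : evT T (monomial m 1) = evT T (monomial m' 1 * r j) := by
      funext t
      simp only [evT, map_mul]
      rw [← hr t t.2 j]
      have : (monomial m (1 : ℝ) : MvPolynomial σ ℝ) = monomial m' 1 * X j ^ N := by
        rw [X_pow_eq_monomial, monomial_mul, hadd, one_mul]
      rw [this, map_mul, map_pow, eval_X]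
    rw [heq]
    apply mem_of_monomials
    intro q hq
    have hqd : (q.sum fun _ e => e) < d := by
      have h1 : (q.sum fun _ e => e) ≤ (monomial m' (1 : ℝ) * r j).totalDegree :=
        le_totalDegree hq
      have h2 : (monomial m' (1 : ℝ) * r j).totalDegree ≤
          (monomial m' (1 : ℝ) : MvPolynomial σ ℝ).totalDegree + (r j).totalDegree :=
        totalDegree_mul _ _
      have h3 : (monomial m' (1 : ℝ) : MvPolynomial σ ℝ).totalDegree ≤ m'.sum fun _ e => e :=
        totalDegree_monomial_le _ _
      have := hdeg j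
      omega
    exact ih _ hqd q rfl

open Classical in
/-- polynomials that separate a point from the other points -/
theorem exists_indicator (T : Finset (σ → ℝ)) (t : T) :
    ∃ p : MvPolynomial σ ℝ, evT T p = Pi.single t 1 := by
  have hsep : ∀ t' : T, t' ≠ t → ∃ p : MvPolynomial σ ℝ, eval (t : σ → ℝ) p = 1 ∧
      eval (t' : σ → ℝ) p = 0 := by
    intro t' ht'
    obtain ⟨j, hj⟩ : ∃ j, (t : σ → ℝ) j ≠ (t' : σ → ℝ) j := by
      by_contra h
      push Not at h
      exact ht' (Subtype.ext (funext fun j => (h j).symm))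
    refine ⟨C ((t : σ → ℝ) j - (t' : σ → ℝ) j)⁻¹ * (X j - C ((t' : σ → ℝ) j)), ?_, ?_⟩
    · simp [inv_mul_cancel₀ (sub_ne_zero.2 hj)]
    · simp
  choose! p hp using hsep
  refine ⟨∏ t' ∈ Finset.univ.erase t, p t', ?_⟩
  funext s
  by_cases hs : s = t
  · subst hs
    simp only [evT, map_prod, Pi.single_eq_same]
    exact Finset.prod_eq_one fun t' ht' => (hp t' (Finset.ne_of_mem_erase ht')).1
  · simp only [evT, map_prod, Pi.single_eq_of_ne hs]
    exact Finset.prod_eq_zero (Finset.mem_erase.2 ⟨hs, Finset.mem_univ s⟩) (hp s hs).2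

/-- **Weak Bezout bound.** -/
theorem card_le_of_pure {T : Finset (σ → ℝ)} {N : ℕ} (r : σ → MvPolynomial σ ℝ)
    (hdeg : ∀ j, (r j).totalDegree < N)
    (hr : ∀ t ∈ T, ∀ j, t j ^ N = eval t (r j)) :
    T.card ≤ N ^ Fintype.card σ := by
  classical
  have htop : lowSpan T N = ⊤ := by
    rw [eq_top_iff]
    intro f _
    have : f = ∑ t : T, f t • (Pi.single t (1 : ℝ) : T → ℝ) := by
      funext s
      simp [Finset.sum_apply, Pi.single_apply]
    rw [this]
    refine Submodule.sum_mem _ fun t _ => Submodule.smul_mem _ _ ?_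
    obtain ⟨p, hp⟩ := exists_indicator T t
    rw [← hp]
    exact mem_of_monomials p fun m _ => monomial_mem r hdeg hr _ m rfl
  have h1 : Module.finrank ℝ (lowSpan T N) ≤ Fintype.card (σ → Fin N) :=
    finrank_range_le_card _
  rw [htop, finrank_top, Module.finrank_fintype_fun_eq_card, Fintype.card_coe] at h1
  refine h1.trans (le_of_eq ?_)
  rw [Fintype.card_fun, Fintype.card_fin]

end Pool.Agent.MP4d246d.Maj
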