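import Mathlib

/-!
# Pivot rules on cubes that see only the improving directions

Vertices of the `n`-cube, histories, pivot rules with memory, the run of a pivot rule, and linear
programs whose feasible region is a combinatorial `n`-cube.
-/

namespace Pool.Agent.MP4d246d.Maj

/-- The vertices of the `n`-cube. -/
abbrev Vertex (n : ℕ) : Type := Fin n → Bool

/-- The other end of the edge of the cube at `v` in direction `i`. -/
def nb {n : ℕ} (v : Vertex n) (i : Fin n) : Vertex n := Function.update v i (!v i)

/-- Everything seen so far, the latest visited vertex first: the visited vertices, each with the set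
of its improving directions. -/
abbrev History (n : ℕ) : Type := List (Vertex n × Finset (Fin n))

/-- A deterministic pivot rule with unlimited memory that sees only the visited vertices and their
improving directions: an arbitrary function that picks, from everything seen so far, one of the
improving directions at the current vertex. -/
structure PivotRule (n : ℕ) where
  /-- the direction that is picked -/
  pick : History n → Fin n
  /-- it is improving, if there is an improving direction -/
  pick_mem : ∀ (v : Vertex n) (S : Finset (Fin n)) (l : History n),
    S.Nonempty → pick ((v, S) :: l) ∈ S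

open Classical in
/-- One step of the rule `ρ`, where `o v` is the set of improving directions at `v`: follow the
picked direction; at a vertex without improving direction, stop. -/
noncomputable def step {n : ℕ} (ρ : PivotRule n) (o : Vertex n → Finset (Fin n)) :
    History n → History n
  | [] => []
  | (v, S) :: l =>
      if S.Nonempty then
        (nb v (ρ.pick ((v, S) :: l)), o (nb v (ρ.pick ((v, S) :: l)))) :: (v, S) :: l
      else (v, S) :: l

/-- The history after at most `t` pivots from the vertex `v₀`. Its entries are the visited
vertices, so its length is one more than the number of pivots made. -/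
noncomputable def run {n : ℕ} (ρ : PivotRule n) (o : Vertex n → Finset (Fin n))
    (v₀ : Vertex n) : ℕ → History n
  | 0 => [(v₀, o v₀)]
  | t + 1 => step ρ o (run ρ o v₀ t)

/-- The rule `ρ`, started at the vertex `v₀`, reaches a vertex without improving directions after at
most `N` pivots. -/
def ReachesSink {n : ℕ} (ρ : PivotRule n) (o : Vertex n → Finset (Fin n)) (v₀ : Vertex n)
    (N : ℕ) : Prop :=
  ∃ t ≤ N, ∃ v l, run ρ o v₀ t = (v, o v) :: l ∧ o v = ∅

/-- `w` lies in the face of the cube through `u` with the directions `D`. -/
def Face {n : ℕ} (D : Finset (Fin n)) (u w : Vertex n) : Prop := ∀ i ∉ D, w i = u i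

/-- `o` gives, at every vertex, the set of directions in which the objective improves, such that
every face of the cube has exactly one vertex from which no edge of the face improves (a unique
sink orientation). -/
def UniqueSinks {n : ℕ} (o : Vertex n → Finset (Fin n)) : Prop :=
  ∀ (D : Finset (Fin n)) (u : Vertex n), ∃! w, Face D u w ∧ o w ∩ D = ∅

/-- A linear program `max c x` subject to the `2n` constraints `A i β x ≤ b i β` (`i : Fin n`,
`β : Bool`), with arbitrary real data, whose feasible region is a combinatorial `n`-cube: for every
choice `v` of one constraint from each of the `n` pairs there is a point `vtx v` at which the chosen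
constraints are tight and the other `n` constraints are not tight. The last condition says that the
ends of an edge have different objective values. -/
structure CubeLP (n : ℕ) where
  /-- the normal vectors of the constraints -/
  A : Fin n → Bool → Fin n → ℝ
  /-- the right-hand sides -/
  b : Fin n → Bool → ℝ
  /-- the objective -/
  c : Fin n → ℝ
  /-- the vertices -/
  vtx : Vertex n → Fin n → ℝ
  tight : ∀ v i, A i (v i) ⬝ᵥ vtx v = b i (v i)
  slack : ∀ v i, A i (!v i) ⬝ᵥ vtx v < b i (!v i)
  nondeg : ∀ v i, c ⬝ᵥ vtx (nb v i) ≠ c ⬝ᵥ vtx v

/-- `x` satisfies all constraints. -/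
def CubeLP.Feasible {n : ℕ} (P : CubeLP n) (x : Fin n → ℝ) : Prop :=
  ∀ i β, P.A i β ⬝ᵥ x ≤ P.b i β

/-- The vertex `v` maximises the objective over the feasible region. -/
def CubeLP.IsOptimal {n : ℕ} (P : CubeLP n) (v : Vertex n) : Prop :=
  ∀ x, P.Feasible x → P.c ⬝ᵥ x ≤ P.c ⬝ᵥ P.vtx v

/-- The improving directions at the vertex `v`: the edges along which the objective increases. -/
noncomputable def CubeLP.improving {n : ℕ} (P : CubeLP n) (v : Vertex n) : Finset (Fin n) :=
  Finset.univ.filter fun i => P.c ⬝ᵥ P.vtx v < P.c ⬝ᵥ P.vtx (nb v i)

/-- The rule `ρ`, started at the vertex `v₀`, reaches an optimal vertex of `P` after at most `N`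
pivots. -/
def Solves {n : ℕ} (ρ : PivotRule n) (P : CubeLP n) (v₀ : Vertex n) (N : ℕ) : Prop :=
  ∃ t ≤ N, ∃ v l, run ρ P.improving v₀ t = (v, P.improving v) :: l ∧ P.IsOptimal v

end Pool.Agent.MP4d246d.Maj
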