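import Pool.Agent.Lib.MP_4d246d_lc.Maj.Geom
import Pool.Agent.Lib.MP_4d246d_lc.Maj.SignCount

/-!
# A pivot rule with `19 n^4` pivots for all linear programs over combinatorial `n`-cubes
-/

namespace Pool.Agent.MP4d246d.Maj

open Matrix MvPolynomial

variable {n : ℕ}

/-- the coordinates of the data -/
abbrev Var (n : ℕ) : Type := (Fin n × Bool × Fin n) ⊕ Fin n

/-- the data of a linear program -/
def CubeLP.pt (P : CubeLP n) : Var n → ℝ
  | Sum.inl (i, β, k) => P.A i β k
  | Sum.inr k => P.c k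

/-- the generic matrix of the tight constraints -/
noncomputable def Bp (v : Vertex n) : Matrix (Fin n) (Fin n) (MvPolynomial (Var n) ℝ) :=
  Matrix.of fun j k => X (Sum.inl (j, v j, k))

/-- the generic objective -/
noncomputable def cp (n : ℕ) : Fin n → MvPolynomial (Var n) ℝ := fun k => X (Sum.inr k)

/-- the polynomial whose sign tells whether `i` is improving at `v` -/
noncomputable def polyOf (e : Vertex n × Fin n) : MvPolynomial (Var n) ℝ :=
  (Bp e.1).det * ((Bp e.1).updateRow e.2 (cp n)).det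

theorem eval_polyOf (P : CubeLP n) (v : Vertex n) (i : Fin n) :
    eval P.pt (polyOf (v, i)) = (P.B v).det * ((P.B v).updateRow i P.c).det := by
  have h1 : (eval P.pt).mapMatrix (Bp v) = P.B v := by
    ext j k
    simp [Bp, CubeLP.B, CubeLP.pt]
  have h2 : (eval P.pt).mapMatrix ((Bp v).updateRow i (cp n)) = (P.B v).updateRow i P.c := by
    rw [← h1]
    simp only [RingHom.mapMatrix_apply, Matrix.map_updateRow]
    congr 1
    funext k
    simp [cp, CubeLP.pt]
  unfold polyOf
  rw [map_mul, RingHom.map_det, RingHom.map_det, h1, h2]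

theorem totalDegree_det_le (M : Matrix (Fin n) (Fin n) (MvPolynomial (Var n) ℝ))
    (hM : ∀ i j, (M i j).totalDegree ≤ 1) : M.det.totalDegree ≤ n := by
  rw [Matrix.det_apply']
  refine totalDegree_finsetSum_le fun τ _ => ?_
  refine (totalDegree_mul _ _).trans ?_
  have h1 : (((Equiv.Perm.sign τ : ℤ) : MvPolynomial (Var n) ℝ)).totalDegree = 0 := by
    rw [← map_intCast (C : ℝ →+* MvPolynomial (Var n) ℝ), totalDegree_C]
  rw [h1, zero_add]
  refine (totalDegree_finsetProd _ _).trans ?_
  refine (Finset.sum_le_card_nsmul _ _ 1 fun i _ => hM _ _).trans ?_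
  simp

theorem totalDegree_polyOf (e : Vertex n × Fin n) : (polyOf e).totalDegree ≤ 2 * n := by
  unfold polyOf
  refine (totalDegree_mul _ _).trans ?_
  have h1 : (Bp e.1).det.totalDegree ≤ n := totalDegree_det_le _ fun i j => by
    simp [Bp, totalDegree_X]
  have h2 : ((Bp e.1).updateRow e.2 (cp n)).det.totalDegree ≤ n :=
    totalDegree_det_le _ fun i j => by
      by_cases hi : i = e.2
      · subst hi
        simp [Matrix.updateRow_self, cp, totalDegree_X]
      · rw [Matrix.updateRow_ne hi]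
        simp [Bp, totalDegree_X]
  omega

theorem totalDegree_prod : (∏ e : Vertex n × Fin n, polyOf e).totalDegree ≤
    2 ^ n * n * (2 * n) := by
  refine (totalDegree_finsetProd _ _).trans ?_
  refine (Finset.sum_le_card_nsmul _ _ (2 * n) fun e _ => totalDegree_polyOf e).trans ?_
  simp

open Classical in
/-- the orientations of linear programs over cubes -/
noncomputable def lpFam (n : ℕ) : Finset (Ori n) :=
  Finset.univ.filter fun o => ∃ P : CubeLP n, P.improving = o

/-- the sign pattern of an orientation -/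
noncomputable def signOf (o : Ori n) : Vertex n × Fin n → Bool := by
  classical
  exact fun e => !decide (e.2 ∈ o e.1)

theorem signOf_injective : Function.Injective (signOf (n := n)) := by
  classical
  intro o o' h
  funext v
  ext i
  have := congrFun h (v, i)
  simp only [signOf, Bool.not_inj_iff, decide_eq_decide] at this
  simpa using this

theorem card_lpFam : (lpFam n).card ≤ (2 * (2 ^ n * n * (2 * n)) + 1) ^ (2 * n ^ 2 + n) := by
  classical
  have h := card_sign_le (fun e : Vertex n × Fin n => polyOf e) (totalDegree_prod (n := n))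
    ((lpFam n).image signOf) (by
      intro s hs
      obtain ⟨o, ho, rfl⟩ := Finset.mem_image.1 hs
      obtain ⟨P, rfl⟩ := (Finset.mem_filter.1 ho).2
      refine ⟨P.pt, fun e => ?_⟩
      obtain ⟨v, i⟩ := e
      rw [eval_polyOf]
      obtain ⟨h1, h2⟩ := P.improving_iff_det v i
      by_cases hi : i ∈ P.improving v
      · simp only [signOf, hi, decide_true, Bool.not_true, Bool.false_eq_true, if_false]
        exact h1.1 hi
      · simp only [signOf, hi, decide_false, Bool.not_false, if_true]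
        exact lt_of_le_of_ne (not_lt.1 fun h => hi (h1.2 h)) (Ne.symm h2))
  rw [Finset.card_image_of_injective _ signOf_injective] at h
  refine h.trans (le_of_eq ?_)
  congr 1
  simp only [Fintype.card_sum, Fintype.card_prod, Fintype.card_fin, Fintype.card_bool]
  ring

theorem log_card : Nat.log 2 (lpFam n).card ≤ (3 * n + 3) * (2 * n ^ 2 + n) := by
  have h1 : n < 2 ^ n := Nat.lt_two_pow_self
  have h2 : 2 * (2 ^ n * n * (2 * n)) + 1 ≤ 2 ^ (3 * n + 3) := by
    have h3 : 2 ^ (3 * n + 3) = 8 * (2 ^ n * 2 ^ n * 2 ^ n) := by ring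
    rw [h3]
    have h4 : n * n ≤ 2 ^ n * 2 ^ n := Nat.mul_le_mul h1.le h1.le
    have h5 : 1 ≤ 2 ^ n := Nat.one_le_two_pow
    have h6 : 2 ^ n * (n * n) ≤ 2 ^ n * (2 ^ n * 2 ^ n) := Nat.mul_le_mul le_rfl h4
    have h7 : 1 ≤ 2 ^ n * (2 ^ n * 2 ^ n) := Nat.mul_pos h5 (Nat.mul_pos h5 h5)
    nlinarith
  calc Nat.log 2 (lpFam n).card
      ≤ Nat.log 2 ((2 ^ (3 * n + 3)) ^ (2 * n ^ 2 + n)) :=
        Nat.log_mono_right (card_lpFam.trans (Nat.pow_le_pow_left h2 _))
    _ = (3 * n + 3) * (2 * n ^ 2 + n) := by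
        rw [← pow_mul, Nat.log_pow (by norm_num)]

theorem main (n : ℕ) (hn : 0 < n) :
    ∃ ρ : PivotRule n, ∀ (P : CubeLP n) (v₀ : Vertex n), Solves ρ P v₀ (19 * n ^ 4) := by
  classical
  obtain ⟨ρ, hρ⟩ := exists_rule hn (lpFam n) (fun o ho => by
    obtain ⟨P, rfl⟩ := (Finset.mem_filter.1 ho).2
    exact P.uniqueSinks.sw)
  refine ⟨ρ, fun P v₀ => ?_⟩
  obtain ⟨t, ht, v, l, hrun, hv⟩ := hρ P.improving
    (Finset.mem_filter.2 ⟨Finset.mem_univ _, P, rfl⟩) v₀
  refine ⟨t, ht.trans ?_, v, l, hrun, P.isOptimal_of_improving_empty hv⟩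
  have h1 := log_card (n := n)
  calc n * (Nat.log 2 (lpFam n).card + 1) ≤ n * ((3 * n + 3) * (2 * n ^ 2 + n) + 1) :=
        Nat.mul_le_mul le_rfl (Nat.add_le_add_right h1 1)
    _ ≤ 19 * n ^ 4 := by
        have h2 : 1 ≤ n := hn
        have h3 : n ≤ n ^ 2 := by nlinarith
        have h4 : n ^ 2 ≤ n ^ 3 := Nat.pow_le_pow_right h2 (by norm_num)
        have h5 : n ^ 3 ≤ n ^ 4 := Nat.pow_le_pow_right h2 (by norm_num)
        have h6 : n * ((3 * n + 3) * (2 * n ^ 2 + n) + 1) = 6 * n ^ 4 + 9 * n ^ 3 + 3 * n ^ 2 + n := by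
          ring
        rw [h6]
        omega

theorem main_class (n : ℕ) (hn : 0 < n) (F : Finset (Vertex n → Finset (Fin n)))
    (hF : ∀ o ∈ F, UniqueSinks o) :
    ∃ ρ : PivotRule n, ∀ o ∈ F, ∀ v₀ : Vertex n,
      ReachesSink ρ o v₀ (n * (Nat.log 2 F.card + 1)) :=
  exists_rule hn F fun o ho => (hF o ho).sw

end Pool.Agent.MP4d246d.Maj
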