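import Pool.Agent.Lib.MP_4d246d_lc.Maj.Uso

/-!
# Linear programs over combinatorial cubes have unique sinks
-/

namespace Pool.Agent.MP4d246d.Maj

open Matrix

variable {n : ℕ}

namespace CubeLP

variable (P : CubeLP n)

/-- the matrix of the tight constraints -/
def B (v : Vertex n) : Matrix (Fin n) (Fin n) ℝ := Matrix.of fun j => P.A j (v j)

/-- the edge vectors as columns -/
def Dm (v : Vertex n) : Matrix (Fin n) (Fin n) ℝ :=
  Matrix.of fun k i => P.vtx (nb v i) k - P.vtx v k

theorem nb_self (v : Vertex n) (i : Fin n) : nb v i i = !v i := by simp [nb]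

theorem nb_ne (v : Vertex n) {i j : Fin n} (h : j ≠ i) : nb v i j = v j := by
  simp [nb, Function.update_of_ne h]

/-- the loss of the constraint `i` along the edge `i` -/
def del (v : Vertex n) (i : Fin n) : ℝ := P.A i (v i) ⬝ᵥ P.vtx (nb v i) - P.b i (v i)

theorem del_neg (v : Vertex n) (i : Fin n) : P.del v i < 0 := by
  have h := P.slack (nb v i) i
  rw [nb_self, Bool.not_not] at h
  unfold del
  linarith

theorem B_mul_Dm (v : Vertex n) : P.B v * P.Dm v = Matrix.diagonal (P.del v) := by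
  ext j i
  have h1 : (P.B v * P.Dm v) j i = P.A j (v j) ⬝ᵥ P.vtx (nb v i) - P.A j (v j) ⬝ᵥ P.vtx v := by
    simp only [Matrix.mul_apply, B, Dm, Matrix.of_apply, dotProduct, mul_sub,
      Finset.sum_sub_distrib]
  rw [h1, P.tight v j]
  by_cases hji : j = i
  · subst hji
    rw [Matrix.diagonal_apply_eq]
    rfl
  · rw [Matrix.diagonal_apply_ne _ hji]
    have h := P.tight (nb v i) j
    rw [nb_ne v hji] at h
    rw [h, sub_self]

theorem det_B_ne (v : Vertex n) : (P.B v).det ≠ 0 := by
  intro h0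
  have h1 : (P.B v * P.Dm v).det = ∏ i, P.del v i := by
    rw [P.B_mul_Dm v, Matrix.det_diagonal]
  rw [Matrix.det_mul, h0, zero_mul] at h1
  exact (Finset.prod_ne_zero_iff.2 fun i _ => (P.del_neg v i).ne) h1.symm

theorem feasible_vtx (w : Vertex n) : P.Feasible (P.vtx w) := by
  intro i β
  by_cases h : β = w i
  · rw [h]; exact (P.tight w i).le
  · have : β = !w i := by cases β <;> cases hw : w i <;> simp_all
    rw [this]
    exact (P.slack w i).le

/-- the cone at a vertex -/
theorem sub_eq (v : Vertex n) (x : Fin n → ℝ) :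
    x - P.vtx v = P.Dm v *ᵥ fun i => (P.A i (v i) ⬝ᵥ x - P.b i (v i)) / P.del v i := by
  have hB : IsUnit (P.B v).det := isUnit_iff_ne_zero.2 (P.det_B_ne v)
  have hinj : Function.Injective (P.B v).mulVec :=
    Matrix.mulVec_injective_iff_isUnit.2 ((Matrix.isUnit_iff_isUnit_det _).2 hB)
  apply hinj
  rw [Matrix.mulVec_mulVec, P.B_mul_Dm v]
  funext j
  rw [Matrix.mulVec_diagonal, Matrix.mulVec_sub]
  have h1 : ((P.B v) *ᵥ x) j = P.A j (v j) ⬝ᵥ x := rfl
  have h2 : ((P.B v) *ᵥ P.vtx v) j = P.A j (v j) ⬝ᵥ P.vtx v := rfl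
  rw [Pi.sub_apply, h1, h2, P.tight v j, mul_div_cancel₀ _ (P.del_neg v j).ne]

/-- the gain along the edge `i` -/
def gain (v : Vertex n) (i : Fin n) : ℝ := P.c ⬝ᵥ P.vtx (nb v i) - P.c ⬝ᵥ P.vtx v

theorem mem_improving {v : Vertex n} {i : Fin n} : i ∈ P.improving v ↔ 0 < P.gain v i := by
  simp [improving, gain]

theorem gain_ne (v : Vertex n) (i : Fin n) : P.gain v i ≠ 0 := sub_ne_zero.2 (P.nondeg v i)

theorem c_Dm (v : Vertex n) (i : Fin n) : (P.c ᵥ* P.Dm v) i = P.gain v i := by
  simp only [Matrix.vecMul, Dm, gain, dotProduct, Matrix.of_apply, mul_sub,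
    Finset.sum_sub_distrib]

theorem c_sub (v : Vertex n) (x : Fin n → ℝ) :
    P.c ⬝ᵥ x - P.c ⬝ᵥ P.vtx v =
      ∑ i, P.gain v i * ((P.A i (v i) ⬝ᵥ x - P.b i (v i)) / P.del v i) := by
  rw [← dotProduct_sub, P.sub_eq v x, Matrix.dotProduct_mulVec]
  simp only [dotProduct]
  exact Finset.sum_congr rfl fun i _ => by rw [P.c_Dm v i]

theorem isOptimal_of_improving_empty {v : Vertex n} (h : P.improving v = ∅) :
    P.IsOptimal v := by
  intro x hx
  have h1 := P.c_sub v x
  have h2 : ∑ i, P.gain v i * ((P.A i (v i) ⬝ᵥ x - P.b i (v i)) / P.del v i) ≤ 0 := by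
    refine Finset.sum_nonpos fun i _ => ?_
    have hg : P.gain v i ≤ 0 := by
      by_contra hg
      push Not at hg
      have : i ∈ P.improving v := P.mem_improving.2 hg
      rw [h] at this
      simp at this
    refine mul_nonpos_of_nonpos_of_nonneg hg ?_
    exact div_nonneg_of_nonpos (sub_nonpos.2 (hx i (v i))) (P.del_neg v i).le
  linarith

/-- a face sink is strictly better than all other vertices of the face -/
theorem lt_of_sink {D : Finset (Fin n)} {u v w : Vertex n} (hv : Face D u v)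
    (hw : Face D u w) (hs : P.improving v ∩ D = ∅) (hne : w ≠ v) :
    P.c ⬝ᵥ P.vtx w < P.c ⬝ᵥ P.vtx v := by
  have h1 := P.c_sub v (P.vtx w)
  have hterm : ∀ i, P.gain v i * ((P.A i (v i) ⬝ᵥ P.vtx w - P.b i (v i)) / P.del v i) ≤ 0 := by
    intro i
    by_cases hi : w i = v i
    · have : P.A i (v i) ⬝ᵥ P.vtx w - P.b i (v i) = 0 := by
        rw [← hi, P.tight w i, sub_self]
      rw [this, zero_div, mul_zero]
    · have hiD : i ∈ D := by
        by_contra hiD
        exact hi ((hw i hiD).trans (hv i hiD).symm)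
      have hg : P.gain v i ≤ 0 := by
        by_contra hg
        push Not at hg
        have : i ∈ P.improving v ∩ D := Finset.mem_inter.2 ⟨P.mem_improving.2 hg, hiD⟩
        rw [hs] at this
        simp at this
      refine mul_nonpos_of_nonpos_of_nonneg hg ?_
      exact div_nonneg_of_nonpos (sub_nonpos.2 (P.feasible_vtx w i (v i))) (P.del_neg v i).le
  obtain ⟨i, hi⟩ : ∃ i, w i ≠ v i := Function.ne_iff.1 hne
  have hstrict : P.gain v i * ((P.A i (v i) ⬝ᵥ P.vtx w - P.b i (v i)) / P.del v i) < 0 := by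
    have hiD : i ∈ D := by
      by_contra hiD
      exact hi ((hw i hiD).trans (hv i hiD).symm)
    have hg : P.gain v i < 0 := by
      refine lt_of_le_of_ne ?_ (P.gain_ne v i)
      by_contra hg
      push Not at hg
      have : i ∈ P.improving v ∩ D := Finset.mem_inter.2 ⟨P.mem_improving.2 hg, hiD⟩
      rw [hs] at this
      simp at this
    refine mul_neg_of_neg_of_pos hg ?_
    have hsl := P.slack w i
    have : (!w i) = v i := by cases h1 : w i <;> cases h2 : v i <;> simp_all
    rw [this] at hsl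
    exact div_pos_of_neg_of_neg (sub_neg.2 hsl) (P.del_neg v i)
  have h2 := Finset.sum_lt_sum (s := Finset.univ) (g := fun _ => (0 : ℝ))
    (fun i _ => hterm i) ⟨i, Finset.mem_univ i, hstrict⟩
  rw [Finset.sum_const_zero] at h2
  linarith

theorem uniqueSinks : UniqueSinks P.improving := by
  classical
  intro D u
  obtain ⟨w, hw, hmax⟩ := (Finset.univ.filter fun w : Vertex n => Face D u w).exists_max_image
    (fun w => P.c ⬝ᵥ P.vtx w) ⟨u, Finset.mem_filter.2 ⟨Finset.mem_univ u, Face.refl D u⟩⟩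
  have hwf : Face D u w := (Finset.mem_filter.1 hw).2
  have hws : P.improving w ∩ D = ∅ := by
    ext i
    simp only [Finset.mem_inter, Finset.notMem_empty, iff_false, not_and]
    intro hi hiD
    have h1 := hmax (nb w i) (Finset.mem_filter.2 ⟨Finset.mem_univ _, hwf.nb hiD⟩)
    have h2 := P.mem_improving.1 hi
    unfold gain at h2
    linarith
  refine ⟨w, ⟨hwf, hws⟩, ?_⟩
  rintro w' ⟨hf', hs'⟩
  by_contra hne
  have h1 := P.lt_of_sink hwf hf' hws hne
  have h2 := P.lt_of_sink hf' hwf hs' (Ne.symm hne)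
  exact lt_asymm h1 h2

/-- improving directions are read off from determinants -/
theorem improving_iff_det (v : Vertex n) (i : Fin n) :
    (i ∈ P.improving v ↔ (P.B v).det * ((P.B v).updateRow i P.c).det < 0) ∧
      (P.B v).det * ((P.B v).updateRow i P.c).det ≠ 0 := by
  have h1 : (P.B v)ᵀ *ᵥ (cramer (P.B v)ᵀ P.c) = (P.B v)ᵀ.det • P.c := mulVec_cramer _ _
  have h2 : (cramer (P.B v)ᵀ P.c ᵥ* P.B v) = (P.B v).det • P.c := by
    rw [← Matrix.mulVec_transpose, h1, det_transpose]
  have h3 : (cramer (P.B v)ᵀ P.c ᵥ* (P.B v * P.Dm v)) i = (P.B v).det * P.gain v i := by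
    rw [← Matrix.vecMul_vecMul, h2, Matrix.smul_vecMul, Pi.smul_apply, P.c_Dm, smul_eq_mul]
  rw [P.B_mul_Dm v, Matrix.vecMul_diagonal, cramer_transpose_apply] at h3
  set y := ((P.B v).updateRow i P.c).det with hy
  set β := (P.B v).det with hβ
  have hβ0 : β ≠ 0 := P.det_B_ne v
  have hd := P.del_neg v i
  have hg := P.gain_ne v i
  have h4 : (β * y) * P.del v i = β ^ 2 * P.gain v i := by
    rw [mul_assoc, h3]; ring
  have hsq : 0 < β ^ 2 := by positivity
  constructor
  · rw [P.mem_improving]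
    constructor
    · intro h
      by_contra hcon
      push Not at hcon
      have : (β * y) * P.del v i ≤ 0 := mul_nonpos_of_nonneg_of_nonpos hcon hd.le
      nlinarith [mul_pos hsq h]
    · intro h
      have : 0 < (β * y) * P.del v i := mul_pos_of_neg_of_neg h hd
      rw [h4] at this
      exact (mul_pos_iff_of_pos_left hsq).1 this
  · intro h
    rw [h, zero_mul] at h4
    exact (mul_ne_zero hsq.ne' hg) h4.symm

end CubeLP

end Pool.Agent.MP4d246d.Maj
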