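import Pool.Agent.Lib.MP_4d246d_lc.Maj.Defs

/-!
# Short paths in incomplete unique sink orientations
-/

namespace Pool.Agent.MP4d246d.Maj

variable {n : ℕ}

/-- The Szabo-Welzl condition for the vertices in `Good`. -/
def Pairwise (Good : Vertex n → Prop) (a : Vertex n → Finset (Fin n)) : Prop :=
  ∀ u w, Good u → Good w → u ≠ w → ∃ i, u i ≠ w i ∧ ¬ (i ∈ a u ↔ i ∈ a w)

/-- From `u` a directed path of at most `r` edges with directions in `D` leads to a vertex that is
not good or has no out-edge in `D`. -/
def Near (Good : Vertex n → Prop) (a : Vertex n → Finset (Fin n)) (D : Finset (Fin n)) :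
    ℕ → Vertex n → Prop
  | 0, u => ¬ Good u ∨ a u ∩ D = ∅
  | r + 1, u => (¬ Good u ∨ a u ∩ D = ∅) ∨ ∃ i ∈ a u ∩ D, Near Good a D r (nb u i)

theorem Near.of_base {Good : Vertex n → Prop} {a : Vertex n → Finset (Fin n)}
    {D : Finset (Fin n)} (r : ℕ) {u : Vertex n} (h : ¬ Good u ∨ a u ∩ D = ∅) :
    Near Good a D r u := by
  cases r with
  | zero => exact h
  | succ r => exact Or.inl h

theorem Near.mono {Good : Vertex n → Prop} {a : Vertex n → Finset (Fin n)}
    {D : Finset (Fin n)} : ∀ {r s : ℕ} {u : Vertex n}, r ≤ s → Near Good a D r u →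
    Near Good a D s u := by
  intro r
  induction r with
  | zero => intro s u _ h; exact Near.of_base s h
  | succ r ih =>
    intro s u hs h
    obtain ⟨s', rfl⟩ : ∃ s', s = s' + 1 := ⟨s - 1, by omega⟩
    rcases h with h | ⟨i, hi, h⟩
    · exact Or.inl h
    · exact Or.inr ⟨i, hi, ih (by omega) h⟩

theorem Face.refl (D : Finset (Fin n)) (u : Vertex n) : Face D u u := fun _ _ => rfl

theorem Face.nb {D : Finset (Fin n)} {u w : Vertex n} (h : Face D u w) {i : Fin n}
    (hi : i ∈ D) : Face D u (nb w i) := by
  intro j hj
  have : j ≠ i := fun e => hj (e ▸ hi)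
  simp [Maj.nb, Function.update_of_ne this, h j hj]

theorem Face.symm {D : Finset (Fin n)} {u w : Vertex n} (h : Face D u w) : Face D w u :=
  fun i hi => (h i hi).symm

theorem Face.trans {D : Finset (Fin n)} {u w x : Vertex n} (h : Face D u w)
    (h' : Face D w x) : Face D u x := fun i hi => (h' i hi).trans (h i hi)

theorem Face.mono {D E : Finset (Fin n)} {u w : Vertex n} (hDE : D ⊆ E) (h : Face D u w) :
    Face E u w := fun i hi => h i fun hD => hi (hDE hD)

/-- a path in a facet without facet sink is a path in the face -/
theorem Near.lift {Good : Vertex n → Prop} {a : Vertex n → Finset (Fin n)}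
    {D E : Finset (Fin n)} (hED : E ⊆ D) {v : Vertex n}
    (hno : ∀ w, Face E v w → Good w → (a w ∩ E).Nonempty) :
    ∀ {r : ℕ} {u : Vertex n}, Face E v u → Near Good a E r u → Near Good a D r u := by
  intro r
  induction r with
  | zero =>
    intro u hu h
    rcases h with h | h
    · exact Or.inl h
    · by_cases hg : Good u
      · exact absurd h (Finset.nonempty_iff_ne_empty.1 (hno u hu hg))
      · exact Or.inl hg
  | succ r ih =>
    intro u hu h
    rcases h with (h | h) | ⟨i, hi, h⟩
    · exact Or.inl (Or.inl h)
    · by_cases hg : Good u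
      · exact absurd h (Finset.nonempty_iff_ne_empty.1 (hno u hu hg))
      · exact Or.inl (Or.inl hg)
    · have hiE := (Finset.mem_inter.1 hi).2
      exact Or.inr ⟨i, Finset.mem_inter.2 ⟨(Finset.mem_inter.1 hi).1, hED hiE⟩,
        ih (hu.nb hiE) h⟩

open Classical in
/-- towards a good sink -/
theorem near_of_sink {Good : Vertex n → Prop} {a : Vertex n → Finset (Fin n)}
    (hp : Pairwise Good a) {D : Finset (Fin n)} {t : Vertex n} (hgt : Good t)
    (hat : a t ∩ D = ∅) : ∀ (r : ℕ) (u : Vertex n), Face D u t →
    (D.filter fun i => u i ≠ t i).card ≤ r → Near Good a D r u := by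
  intro r
  induction r with
  | zero =>
    intro u hu hr
    have h0 : (D.filter fun i => u i ≠ t i) = ∅ := Finset.card_eq_zero.1 (Nat.le_zero.1 hr)
    have : u = t := by
      funext i
      by_cases hi : i ∈ D
      · by_contra hne
        have : i ∈ (D.filter fun i => u i ≠ t i) := Finset.mem_filter.2 ⟨hi, hne⟩
        rw [h0] at this
        simp at this
      · exact (hu i hi).symm
    subst this
    exact Or.inr hat
  | succ r ih =>
    intro u hu hr
    by_cases hg : Good u
    · by_cases hut : u = t
      · subst hut; exact Or.inl (Or.inr hat)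
      · obtain ⟨i, hi, hx⟩ := hp u t hg hgt hut
        have hiD : i ∈ D := by
          by_contra hiD
          exact hi (hu i hiD).symm
        have hit : i ∉ a t := fun h => by
          have : i ∈ a t ∩ D := Finset.mem_inter.2 ⟨h, hiD⟩
          rw [hat] at this
          simp at this
        have hiu : i ∈ a u := by
          by_contra h
          exact hx ⟨fun h' => absurd h' h, fun h' => absurd h' hit⟩
        refine Or.inr ⟨i, Finset.mem_inter.2 ⟨hiu, hiD⟩, ih (nb u i) ?_ ?_⟩
        · exact ((Face.refl D u).nb hiD).symm.trans hu
        · have hmem : i ∈ (D.filter fun j => u j ≠ t j) := Finset.mem_filter.2 ⟨hiD, hi⟩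
          have hsub : (D.filter fun j => nb u i j ≠ t j) ⊆
              (D.filter fun j => u j ≠ t j).erase i := by
            intro j hj
            obtain ⟨hjD, hj⟩ := Finset.mem_filter.1 hj
            have hji : j ≠ i := by
              rintro rfl
              apply hj
              simp only [nb, Function.update_self]
              cases h1 : u j <;> cases h2 : t j <;> simp_all
            refine Finset.mem_erase.2 ⟨hji, Finset.mem_filter.2 ⟨hjD, ?_⟩⟩
            simpa [nb, Function.update_of_ne hji] using hj
          have := Finset.card_le_card hsub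
          rw [Finset.card_erase_of_mem hmem] at this
          omega
    · exact Or.inl (Or.inl hg)

/-- **Path lemma.** In an incomplete unique sink orientation of a face with the free directions `D` a
directed path of at most `|D|` edges leads from every vertex to a vertex that is not good or is a
sink of the face. -/
theorem near_card {Good : Vertex n → Prop} {a : Vertex n → Finset (Fin n)}
    (hp : Pairwise Good a) : ∀ (m : ℕ) (D : Finset (Fin n)), D.card = m → ∀ u : Vertex n,
    Near Good a D m u := by
  classical
  intro m
  induction m with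
  | zero =>
    intro D hD u
    have : D = ∅ := Finset.card_eq_zero.1 hD
    subst this
    exact Or.inr (by simp)
  | succ m ih =>
    intro D hD u
    by_cases hg : Good u
    swap
    · exact Near.of_base _ (Or.inl hg)
    by_cases hau : a u ∩ D = ∅
    · exact Near.of_base _ (Or.inr hau)
    by_cases hs : ∃ t, Face D u t ∧ Good t ∧ a t ∩ D = ∅
    · obtain ⟨t, ht, hgt, hat⟩ := hs
      exact near_of_sink hp hgt hat _ u ht
        ((Finset.card_le_card (Finset.filter_subset _ _)).trans_eq hD)
    push Not at hs
    have hcard : ∀ i ∈ D, (D.erase i).card = m := fun i hi => by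
      rw [Finset.card_erase_of_mem hi]; omega
    by_cases hA : ∃ i ∈ D, ∀ w, Face (D.erase i) u w → Good w → (a w ∩ D.erase i).Nonempty
    · obtain ⟨i, hi, hno⟩ := hA
      have h1 : Near Good a (D.erase i) m u := ih _ (hcard i hi) u
      exact (Near.lift (Finset.erase_subset i D) hno (Face.refl _ u) h1).mono (Nat.le_succ m)
    · push Not at hA
      obtain ⟨j, hj⟩ := Finset.nonempty_iff_ne_empty.2 hau
      obtain ⟨hja, hjD⟩ := Finset.mem_inter.1 hj
      obtain ⟨t, htf, hgt, hat⟩ := hA j hjD
      have htj : j ∈ a t := by
        by_contra hjt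
        have h2 := hs t (htf.mono (Finset.erase_subset j D)) hgt
        obtain ⟨k, hk⟩ := h2
        obtain ⟨hka, hkD⟩ := Finset.mem_inter.1 hk
        have hkj : k ≠ j := fun e => hjt (e ▸ hka)
        have : k ∈ a t ∩ D.erase j := Finset.mem_inter.2 ⟨hka, Finset.mem_erase.2 ⟨hkj, hkD⟩⟩
        rw [hat] at this
        simp at this
      have htju : t j = u j := htf j (Finset.notMem_erase j D)
      have hno : ∀ w, Face (D.erase j) (nb u j) w → Good w → (a w ∩ D.erase j).Nonempty := by
        intro w hw hgw
        by_contra hem
        rw [Finset.not_nonempty_iff_eq_empty] at hem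
        have hwj : w j = !u j := by
          rw [hw j (Finset.notMem_erase j D)]; simp [nb]
        have hwD : Face D u w := ((Face.refl D u).nb hjD).trans (hw.mono (Finset.erase_subset j D))
        have hjw : j ∈ a w := by
          by_contra hjw
          obtain ⟨k, hk⟩ := hs w hwD hgw
          obtain ⟨hka, hkD⟩ := Finset.mem_inter.1 hk
          have hkj : k ≠ j := fun e => hjw (e ▸ hka)
          have : k ∈ a w ∩ D.erase j :=
            Finset.mem_inter.2 ⟨hka, Finset.mem_erase.2 ⟨hkj, hkD⟩⟩
          rw [hem] at this
          simp at this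
        have hne : w ≠ t := by
          intro e
          rw [e, htju] at hwj
          cases h : u j <;> simp [h] at hwj
        obtain ⟨k, hk, hx⟩ := hp w t hgw hgt hne
        apply hx
        by_cases hkj : k = j
        · subst hkj; exact ⟨fun _ => htj, fun _ => hjw⟩
        · have hkD : k ∈ D := by
            by_contra hkD
            exact hk ((hwD k hkD).trans (htf k fun h => hkD (Finset.mem_of_mem_erase h)).symm)
          have hkE : k ∈ D.erase j := Finset.mem_erase.2 ⟨hkj, hkD⟩
          constructor
          · intro h
            have : k ∈ a w ∩ D.erase j := Finset.mem_inter.2 ⟨h, hkE⟩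
            rw [hem] at this
            simp at this
          · intro h
            have : k ∈ a t ∩ D.erase j := Finset.mem_inter.2 ⟨h, hkE⟩
            rw [hat] at this
            simp at this
      have h1 : Near Good a (D.erase j) m (nb u j) := ih _ (hcard j hjD) _
      exact Or.inr ⟨j, hj, Near.lift (Finset.erase_subset j D) hno (Face.refl _ _) h1⟩

end Pool.Agent.MP4d246d.Maj
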