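import Pool.Agent.Lib.MP_4d246d_lc.Maj.Win

/-!
# Unique sinks in all faces imply the Szabo-Welzl condition
-/

namespace Pool.Agent.MP4d246d.Maj

variable {n : ℕ}

/-- reverse all edges in the directions of `J` -/
def rev (J : Finset (Fin n)) (o : Ori n) : Ori n := fun v => symmDiff (o v) J

theorem face_erase {D : Finset (Fin n)} {i : Fin n} (hi : i ∈ D) {u w : Vertex n}
    (h : Face D u w) : Face (D.erase i) u w ∨ Face (D.erase i) (nb u i) w := by
  by_cases hw : w i = u i
  · left
    intro j hj
    by_cases hji : j = i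
    · rw [hji, hw]
    · exact h j fun hjD => hj (Finset.mem_erase.2 ⟨hji, hjD⟩)
  · right
    intro j hj
    by_cases hji : j = i
    · subst hji
      simp only [nb, Function.update_self]
      cases h1 : w j <;> cases h2 : u j <;> simp_all
    · simp only [nb, Function.update_of_ne hji]
      exact h j fun hjD => hj (Finset.mem_erase.2 ⟨hji, hjD⟩)

theorem UniqueSinks.rev_single {o : Ori n} (ho : UniqueSinks o) (i : Fin n) :
    UniqueSinks (rev {i} o) := by
  classical
  intro D u
  by_cases hi : i ∈ D
  swap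
  · have : ∀ w, rev {i} o w ∩ D = o w ∩ D := by
      intro w
      ext j
      simp only [rev, Finset.mem_inter, Finset.mem_symmDiff, Finset.mem_singleton]
      constructor
      · rintro ⟨h, hD⟩
        have : j ≠ i := fun e => hi (e ▸ hD)
        tauto
      · rintro ⟨h, hD⟩
        have : j ≠ i := fun e => hi (e ▸ hD)
        tauto
    simp only [this]
    exact ho D u
  -- the two facets
  have hE : ∀ w, rev {i} o w ∩ D.erase i = o w ∩ D.erase i := by
    intro w
    ext j
    simp only [rev, Finset.mem_inter, Finset.mem_symmDiff, Finset.mem_singleton,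
      Finset.mem_erase]
    tauto
  have hsplit : ∀ (o' : Ori n) w, o' w ∩ D = ∅ ↔ o' w ∩ D.erase i = ∅ ∧ i ∉ o' w := by
    intro o' w
    constructor
    · intro h
      refine ⟨?_, fun hiw => ?_⟩
      · rw [← Finset.subset_empty, ← h]
        exact Finset.inter_subset_inter_left (Finset.erase_subset i D) |>.trans (by simp)
      · have : i ∈ o' w ∩ D := Finset.mem_inter.2 ⟨hiw, hi⟩
        rw [h] at this
        simp at this
    · rintro ⟨h1, h2⟩
      ext j
      simp only [Finset.mem_inter, Finset.notMem_empty, iff_false, not_and]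
      intro hj hjD
      have hji : j ≠ i := fun e => h2 (e ▸ hj)
      have : j ∈ o' w ∩ D.erase i := Finset.mem_inter.2 ⟨hj, Finset.mem_erase.2 ⟨hji, hjD⟩⟩
      rw [h1] at this
      simp at this
  have hir : ∀ w, i ∉ rev {i} o w ↔ i ∈ o w := by
    intro w
    simp [rev, Finset.mem_symmDiff]
  obtain ⟨t₀, ⟨ht₀f, ht₀⟩, hu₀⟩ := ho (D.erase i) u
  obtain ⟨t₁, ⟨ht₁f, ht₁⟩, hu₁⟩ := ho (D.erase i) (nb u i)
  have hnbf : Face D u (nb u i) := (Face.refl D u).nb hi
  have hcase : ∀ w, Face D u w → o w ∩ D.erase i = ∅ → w = t₀ ∨ w = t₁ := by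
    intro w hw hs
    rcases face_erase hi hw with h | h
    · exact Or.inl (hu₀ w ⟨h, hs⟩)
    · exact Or.inr (hu₁ w ⟨h, hs⟩)
  have hf0 : Face D u t₀ := ht₀f.mono (Finset.erase_subset i D)
  have hf1 : Face D u t₁ := hnbf.trans (ht₁f.mono (Finset.erase_subset i D))
  have h01 : t₀ ≠ t₁ := by
    intro e
    have h1 := ht₀f i (Finset.notMem_erase i D)
    have h2 := ht₁f i (Finset.notMem_erase i D)
    rw [← e, h1] at h2
    simp only [nb, Function.update_self] at h2
    cases h : u i <;> simp [h] at h2
  obtain ⟨t, ⟨htf, ht⟩, hut⟩ := ho D u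
  have ht' := (hsplit o t).1 ht
  have hone : ∀ x, Face D u x → o x ∩ D.erase i = ∅ → x ≠ t → i ∈ o x := by
    intro x hx hs hxt
    by_contra hix
    exact hxt (hut x ⟨hx, (hsplit o x).2 ⟨hs, hix⟩⟩)
  rcases hcase t htf ht'.1 with e | e
  · refine ⟨t₁, ⟨hf1, (hsplit _ _).2 ⟨(hE t₁).trans ht₁, (hir _).2 ?_⟩⟩, ?_⟩
    · exact hone t₁ hf1 ht₁ (fun h => h01 (e.symm.trans h.symm))
    · rintro w ⟨hw, hsw⟩
      have h := (hsplit _ w).1 hsw
      rw [hE] at h
      rcases hcase w hw h.1 with e' | e'
      · exfalso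
        have := (hir w).1 h.2
        rw [e', ← e] at this
        exact ht'.2 this
      · exact e'
  · refine ⟨t₀, ⟨hf0, (hsplit _ _).2 ⟨(hE t₀).trans ht₀, (hir _).2 ?_⟩⟩, ?_⟩
    · exact hone t₀ hf0 ht₀ (fun h => h01 (h.trans e))
    · rintro w ⟨hw, hsw⟩
      have h := (hsplit _ w).1 hsw
      rw [hE] at h
      rcases hcase w hw h.1 with e' | e'
      · exact e'
      · exfalso
        have := (hir w).1 h.2
        rw [e', ← e] at this
        exact ht'.2 this

theorem UniqueSinks.rev_all {o : Ori n} (ho : UniqueSinks o) (J : Finset (Fin n)) :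
    UniqueSinks (rev J o) := by
  classical
  induction J using Finset.induction_on with
  | empty =>
    have : rev ∅ o = o := by
      funext v
      ext j
      simp [rev, Finset.mem_symmDiff]
    rw [this]
    exact ho
  | insert i J hi ih =>
    have : rev (insert i J) o = rev {i} (rev J o) := by
      funext v
      ext j
      simp only [rev, Finset.mem_symmDiff, Finset.mem_insert, Finset.mem_singleton]
      by_cases hji : j = i
      · subst hji
        tauto
      · tauto
    rw [this]
    exact ih.rev_single i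

theorem UniqueSinks.sw {o : Ori n} (ho : UniqueSinks o) : SW o := by
  classical
  intro u w huw
  by_contra hno
  push Not at hno
  set D : Finset (Fin n) := Finset.univ.filter fun i => u i ≠ w i with hD
  have hfw : Face D u w := by
    intro i hi
    by_contra h
    exact hi (Finset.mem_filter.2 ⟨Finset.mem_univ i, fun e => h e.symm⟩)
  obtain ⟨t, _, ht⟩ := ho.rev_all (o u) D u
  have h1 := ht u ⟨Face.refl D u, by simp [rev]⟩
  have h2 := ht w ⟨hfw, by
    ext j
    simp only [rev, Finset.mem_inter, Finset.mem_symmDiff, Finset.notMem_empty, iff_false,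
      not_and]
    intro hj hjD
    have := hno j (Finset.mem_filter.1 hjD).2
    tauto⟩
  exact huw (h1.trans h2.symm)

end Pool.Agent.MP4d246d.Maj
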