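import Pool.Agent.Lib.MP_4d246d_lc.Maj.Path

/-!
# Halving the candidates: a short strategy for every finite family of unique sink orientations
-/

namespace Pool.Agent.MP4d246d.Maj

variable {n : ℕ}

/-- an orientation: the set of out-directions at every vertex -/
abbrev Ori (n : ℕ) : Type := Vertex n → Finset (Fin n)

open Classical in
/-- In the game where at the vertex `v` the candidates are `F`, the player can reach the sink within
`N` steps, whatever the candidate is. -/
def Win : ℕ → Finset (Ori n) → Vertex n → Prop
  | 0, F, v => ∀ o ∈ F, o v = ∅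
  | N + 1, F, v => (∀ o ∈ F, o v = ∅) ∨
      ∃ i, (∀ o ∈ F, i ∈ o v) ∧ ∀ S, Win N (F.filter fun o => o (nb v i) = S) (nb v i)

theorem Win.of_base {F : Finset (Ori n)} (N : ℕ) {v : Vertex n} (h : ∀ o ∈ F, o v = ∅) :
    Win N F v := by
  cases N with
  | zero => exact h
  | succ N => exact Or.inl h

theorem Win.mono : ∀ {N M : ℕ} {F : Finset (Ori n)} {v : Vertex n}, N ≤ M → Win N F v →
    Win M F v := by
  intro N
  induction N with
  | zero => intro M F v _ h; exact Win.of_base M h
  | succ N ih =>
    intro M F v hM h
    obtain ⟨M', rfl⟩ : ∃ M', M = M' + 1 := ⟨M - 1, by omega⟩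
    rcases h with h | ⟨i, hi, h⟩
    · exact Or.inl h
    · exact Or.inr ⟨i, hi, fun S => ih (by omega) (h S)⟩

/-- `o` satisfies the Szabo-Welzl condition -/
def SW (o : Ori n) : Prop := ∀ u w, u ≠ w → ∃ i, u i ≠ w i ∧ ¬ (i ∈ o u ↔ i ∈ o w)

open Classical in
/-- the vertex `u` has the majority outcome `S` in the family `F` -/
def Maj (F : Finset (Ori n)) (u : Vertex n) (S : Finset (Fin n)) : Prop :=
  F.card < 2 * (F.filter fun o => o u = S).card

theorem Maj.common {F : Finset (Ori n)} {u w : Vertex n} {S T : Finset (Fin n)}
    (h : Maj F u S) (h' : Maj F w T) : ∃ o ∈ F, o u = S ∧ o w = T := by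
  classical
  unfold Maj at h h'
  by_contra hno
  push Not at hno
  have hdisj : Disjoint (F.filter fun o => o u = S) (F.filter fun o => o w = T) := by
    rw [Finset.disjoint_left]
    intro o ho ho'
    obtain ⟨h1, h2⟩ := Finset.mem_filter.1 ho
    obtain ⟨_, h3⟩ := Finset.mem_filter.1 ho'
    exact hno o h1 h2 h3
  have := Finset.card_union_of_disjoint hdisj
  have hle : ((F.filter fun o => o u = S) ∪ (F.filter fun o => o w = T)).card ≤ F.card :=
    Finset.card_le_card (Finset.union_subset (Finset.filter_subset _ _)
      (Finset.filter_subset _ _))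
  omega

theorem Maj.unique {F : Finset (Ori n)} {u : Vertex n} {S T : Finset (Fin n)}
    (h : Maj F u S) (h' : Maj F u T) : S = T := by
  obtain ⟨o, _, h1, h2⟩ := h.common h'
  exact h1.symm.trans h2

open Classical in
/-- the majority orientation -/
noncomputable def majOf (F : Finset (Ori n)) : Ori n := fun u =>
  if h : ∃ S, Maj F u S then h.choose else ∅

theorem majOf_spec {F : Finset (Ori n)} {u : Vertex n} (h : ∃ S, Maj F u S) :
    Maj F u (majOf F u) := by
  classical
  unfold majOf
  rw [dif_pos h]
  exact h.choose_spec

theorem majOf_eq {F : Finset (Ori n)} {u : Vertex n} {S : Finset (Fin n)} (h : Maj F u S) :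
    majOf F u = S := (majOf_spec ⟨S, h⟩).unique h

theorem pairwise_maj {F : Finset (Ori n)} (hF : ∀ o ∈ F, SW o) :
    Pairwise (fun u => ∃ S, Maj F u S) (majOf F) := by
  intro u w hu hw hne
  obtain ⟨o, ho, h1, h2⟩ := (majOf_spec hu).common (majOf_spec hw)
  obtain ⟨i, hi, hx⟩ := hF o ho u w hne
  rw [h1, h2] at hx
  exact ⟨i, hi, hx⟩

/-- **Halving.** -/
theorem win_of_card : ∀ (m : ℕ) (F : Finset (Ori n)), F.card = m → (∀ o ∈ F, SW o) →
    ∀ v : Vertex n, (∃ S, ∀ o ∈ F, o v = S) → Win (n * (Nat.log 2 F.card + 1)) F v := by
  classical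
  intro m
  induction m using Nat.strong_induction_on with
  | _ m ih =>
  intro F hFm hF v hv
  -- walk along the majority path
  have key : ∀ (r : ℕ) (u : Vertex n) (G : Finset (Ori n)), G ⊆ F → (∃ S, ∀ o ∈ G, o u = S) →
      Near (fun u => ∃ S, Maj F u S) (majOf F) Finset.univ r u →
      Win (r + n * Nat.log 2 F.card) G u := by
    intro r
    induction r with
    | zero =>
      intro u G hG ⟨S, hS⟩ hnear
      by_cases hmaj : F.card < 2 * G.card
      · have hMS : Maj F u S := by
          unfold Maj
          refine hmaj.trans_le (Nat.mul_le_mul le_rfl (Finset.card_le_card ?_))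
          intro o ho
          exact Finset.mem_filter.2 ⟨hG ho, hS o ho⟩
        rcases hnear with h | h
        · exact absurd ⟨S, hMS⟩ h
        · rw [Finset.inter_univ, majOf_eq hMS] at h
          exact Win.of_base _ fun o ho => (hS o ho).trans h
      · by_cases hG0 : G = ∅
        · subst hG0
          exact Win.of_base _ (by simp)
        · have hGpos : 0 < G.card := Finset.card_pos.2 (Finset.nonempty_iff_ne_empty.2 hG0)
          have hlt : G.card < m := by omega
          have h1 := ih G.card hlt G rfl (fun o ho => hF o (hG ho)) u ⟨S, hS⟩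
          refine h1.mono ?_
          have : Nat.log 2 G.card + 1 = Nat.log 2 (G.card * 2) :=
            (Nat.log_mul_base (by norm_num) hGpos.ne').symm
          rw [this]
          refine (Nat.mul_le_mul le_rfl (Nat.log_mono_right (by omega))).trans (Nat.le_add_left _ _)
    | succ r ihr =>
      intro u G hG ⟨S, hS⟩ hnear
      by_cases hmaj : F.card < 2 * G.card
      · have hMS : Maj F u S := by
          unfold Maj
          refine hmaj.trans_le (Nat.mul_le_mul le_rfl (Finset.card_le_card ?_))
          intro o ho
          exact Finset.mem_filter.2 ⟨hG ho, hS o ho⟩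
        rcases hnear with (h | h) | ⟨i, hi, h⟩
        · exact absurd ⟨S, hMS⟩ h
        · rw [Finset.inter_univ, majOf_eq hMS] at h
          exact Win.of_base _ fun o ho => (hS o ho).trans h
        · rw [Finset.inter_univ, majOf_eq hMS] at hi
          have : r + 1 + n * Nat.log 2 F.card = (r + n * Nat.log 2 F.card) + 1 := by ring
          rw [this]
          refine Or.inr ⟨i, fun o ho => by rw [hS o ho]; exact hi, fun T => ?_⟩
          exact ihr (nb u i) _ ((Finset.filter_subset _ _).trans hG)
            ⟨T, fun o ho => (Finset.mem_filter.1 ho).2⟩ h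
      · by_cases hG0 : G = ∅
        · subst hG0
          exact Win.of_base _ (by simp)
        · have hGpos : 0 < G.card := Finset.card_pos.2 (Finset.nonempty_iff_ne_empty.2 hG0)
          have hlt : G.card < m := by omega
          have h1 := ih G.card hlt G rfl (fun o ho => hF o (hG ho)) u ⟨S, hS⟩
          refine h1.mono ?_
          have : Nat.log 2 G.card + 1 = Nat.log 2 (G.card * 2) :=
            (Nat.log_mul_base (by norm_num) hGpos.ne').symm
          rw [this]
          refine (Nat.mul_le_mul le_rfl (Nat.log_mono_right (by omega))).trans (Nat.le_add_left _ _)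
  have h := key n v F (Finset.Subset.refl F) hv
    (near_card (pairwise_maj hF) n Finset.univ (by simp) v)
  refine h.mono (le_of_eq ?_)
  ring

/-! ### From strategies to pivot rules -/

open Classical in
/-- the candidates that agree with the history -/
noncomputable def cand (F : Finset (Ori n)) (h : History n) : Finset (Ori n) :=
  F.filter fun o => ∀ e ∈ h, o e.1 = e.2

theorem cand_cons {F : Finset (Ori n)} {h : History n} {v : Vertex n} {S : Finset (Fin n)} :
    cand F ((v, S) :: h) = (cand F h).filter fun o => o v = S := by
  classical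
  unfold cand
  ext o
  simp only [Finset.mem_filter, List.mem_cons, forall_eq_or_imp]
  tauto

/-- the good moves: a winning move for the candidates, if there is one -/
def GoodMove (N : ℕ) (F : Finset (Ori n)) (h : History n) (v : Vertex n) (S : Finset (Fin n))
    (i : Fin n) : Prop :=
  i ∈ S ∧ ∃ M, M + 1 + h.length = N ∧
    ∀ T, Win M (cand F ((nb v i, T) :: (v, S) :: h)) (nb v i)

open Classical in
/-- the pivot rule that plays winning moves -/
noncomputable def ruleOf (hn : 0 < n) (N : ℕ) (F : Finset (Ori n)) : PivotRule n where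
  pick h := match h with
    | [] => ⟨0, hn⟩
    | (v, S) :: l =>
        if hg : ∃ i, GoodMove N F l v S i then hg.choose
        else if hS : S.Nonempty then hS.choose else ⟨0, hn⟩
  pick_mem v S l hS := by
    simp only
    split_ifs with hg
    · exact hg.choose_spec.1
    · exact hS.choose_spec

/-- **Every finite family of unique sink orientations has a fast pivot rule.** -/
theorem exists_rule (hn : 0 < n) (F : Finset (Ori n)) (hF : ∀ o ∈ F, SW o) :
    ∃ ρ : PivotRule n, ∀ o ∈ F, ∀ v₀ : Vertex n,
      ∃ t ≤ n * (Nat.log 2 F.card + 1), ∃ v l, run ρ o v₀ t = (v, o v) :: l ∧ o v = ∅ := by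
  classical
  set N := n * (Nat.log 2 F.card + 1) with hN
  refine ⟨ruleOf hn N F, fun o ho v₀ => ?_⟩
  set ρ := ruleOf hn N F with hρ
  -- invariant
  have inv : ∀ t ≤ N, ∃ v l, run ρ o v₀ t = (v, o v) :: l ∧
      (o v = ∅ ∨ (l.length = t ∧ o ∈ cand F ((v, o v) :: l) ∧
        Win (N - t) (cand F ((v, o v) :: l)) v)) := by
    intro t
    induction t with
    | zero =>
      intro _
      refine ⟨v₀, [], rfl, Or.inr ⟨rfl, ?_, ?_⟩⟩
      · simp [cand, ho]
      · have hsub : cand F [(v₀, o v₀)] ⊆ F := Finset.filter_subset _ _
        have h1 := win_of_card _ (cand F [(v₀, o v₀)]) rfl (fun o' ho' => hF o' (hsub ho')) v₀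
          ⟨o v₀, fun o' ho' => by
            have := (Finset.mem_filter.1 ho').2 (v₀, o v₀) (by simp)
            exact this⟩
        refine h1.mono ?_
        rw [Nat.sub_zero, hN]
        exact Nat.mul_le_mul le_rfl (Nat.add_le_add_right (Nat.log_mono_right
          (Finset.card_le_card hsub)) 1)
    | succ t ih =>
      intro ht
      obtain ⟨v, l, hrun, hv⟩ := ih (by omega)
      rcases hv with hv | ⟨hlen, hmem, hwin⟩
      · refine ⟨v, l, ?_, Or.inl hv⟩
        show step ρ o (run ρ o v₀ t) = _
        rw [hrun]
        simp [step, hv]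
      · by_cases hv : o v = ∅
        · refine ⟨v, l, ?_, Or.inl hv⟩
          show step ρ o (run ρ o v₀ t) = _
          rw [hrun]
          simp [step, hv]
        · have hne : (o v).Nonempty := Finset.nonempty_iff_ne_empty.2 hv
          obtain ⟨M, hM⟩ : ∃ M, N - t = M + 1 := ⟨N - t - 1, by omega⟩
          rw [hM] at hwin
          have hgood : ∃ i, GoodMove N F l v (o v) i := by
            rcases hwin with h | ⟨i, hi, h⟩
            · exact absurd (h o hmem) hv
            · refine ⟨i, hi o hmem, M, by omega, fun T => ?_⟩
              rw [cand_cons]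
              exact h T
          have hpick : GoodMove N F l v (o v) (ρ.pick ((v, o v) :: l)) := by
            have : ρ.pick ((v, o v) :: l) = hgood.choose := by
              rw [hρ]
              show (if hg : ∃ i, GoodMove N F l v (o v) i then hg.choose
                else if hS : (o v).Nonempty then hS.choose else ⟨0, hn⟩) = _
              rw [dif_pos hgood]
            rw [this]
            exact hgood.choose_spec
          set i := ρ.pick ((v, o v) :: l) with hi
          obtain ⟨_, M', hM', hw⟩ := hpick
          refine ⟨nb v i, (v, o v) :: l, ?_, Or.inr ⟨by simp [hlen], ?_, ?_⟩⟩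
          · show step ρ o (run ρ o v₀ t) = _
            rw [hrun]
            simp only [step, if_pos hne]
            rfl
          · rw [cand_cons]
            exact Finset.mem_filter.2 ⟨hmem, rfl⟩
          · have : N - (t + 1) = M' := by omega
            rw [this]
            exact hw _
  obtain ⟨v, l, hrun, hv⟩ := inv N le_rfl
  refine ⟨N, le_rfl, v, l, hrun, ?_⟩
  rcases hv with hv | ⟨_, hmem, hwin⟩
  · exact hv
  · rw [Nat.sub_self] at hwin
    exact hwin o hmem

end Pool.Agent.MP4d246d.Maj
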